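import Mathlib

/-!
Definitions for MP_f5e7e2_co (Pfaffians built from Al-Salam–Carlitz moment sequences), in a field.
-/

set_option autoImplicit false

namespace Pool.Agent.Zk81.Pf

open Finset

variable {K : Type*} [Field K]

/-- `(q;q)_m = ∏_{i=1}^m (1 - q^i)`. -/
def poch (q : K) (m : ℕ) : K := ∏ i ∈ range m, (1 - q ^ (i + 1))

/-- The Gaussian binomial `(q;q)_m / ((q;q)_k (q;q)_{m-k})`, for `0 ≤ k ≤ m`. -/
def gaussBinom (q : K) (m k : ℕ) : K := poch q m / (poch q k * poch q (m - k))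

/-- The moments `g_r = ∑_{j=0}^r [r, j]_q a^j` for `r ≥ 0`, and `g_r = 0` for `r < 0`. -/
def moment (a q : K) (r : ℤ) : K :=
  if r < 0 then 0 else ∑ j ∈ range (r.toNat + 1), gaussBinom q r.toNat j * a ^ j

/-- The Pfaffian of a `2n × 2n` matrix:
`(1 / (2^n n!)) ∑_σ sgn(σ) ∏_{k=1}^n A_{σ(2k-1), σ(2k)}` (indices counted from 0 here). -/
def pfaffian {n : ℕ} (A : Matrix (Fin (2 * n)) (Fin (2 * n)) K) : K :=
  (1 / (2 ^ n * (n.factorial : K))) * ∑ σ : Equiv.Perm (Fin (2 * n)),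
    ((Equiv.Perm.sign σ : ℤ) : K) *
      ∏ k : Fin n, A (σ ⟨2 * (k : ℕ), by omega⟩) (σ ⟨2 * (k : ℕ) + 1, by omega⟩)

/-- `e(n) = m (16 m² - 1) / 3 - (-1)^n 4 m²` with `m = ⌊n/2⌋`. -/
def expo (n : ℕ) : ℤ :=
  ((n / 2 : ℕ) : ℤ) * (16 * ((n / 2 : ℕ) : ℤ) ^ 2 - 1) / 3 - (-1) ^ n * (4 * ((n / 2 : ℕ) : ℤ) ^ 2)

end Pool.Agent.Zk81.Pf
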