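import Pool.Agent.Zk81.Pf.Change
import Pool.Agent.Zk81.Pf.Defs

/-!
Gaussian binomials, Rogers–Szegő polynomials and the two Pfaffians.
-/

set_option autoImplicit false

namespace Pool.Agent.Zk81.Pf

open Finset

variable {K : Type*} [Field K]

lemma poch_succ (q : K) (m : ℕ) : poch q (m + 1) = poch q m * (1 - q ^ (m + 1)) := by
  unfold poch; rw [prod_range_succ]

lemma poch_zero (q : K) : poch q 0 = 1 := by simp [poch]

lemma poch_ne_zero {q : K} (hq : ∀ i : ℕ, 1 ≤ i → q ^ i ≠ 1) (m : ℕ) : poch q m ≠ 0 := by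
  unfold poch
  rw [Finset.prod_ne_zero_iff]
  intro i _ h
  exact hq (i + 1) (by omega) (by linear_combination -h)

lemma one_sub_ne {q : K} (hq : ∀ i : ℕ, 1 ≤ i → q ^ i ≠ 1) (m : ℕ) : 1 - q ^ (m + 1) ≠ 0 :=
  fun h => hq (m + 1) (by omega) (by linear_combination -h)

/-- Gaussian binomial, zero if `k > m`. -/
def gb (q : K) (m k : ℕ) : K := if k ≤ m then gaussBinom q m k else 0

lemma gb_add (q : K) (k r : ℕ) : gb q (k + r) k = poch q (k + r) / (poch q k * poch q r) := by
  unfold gb gaussBinom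
  rw [if_pos (by omega), Nat.add_sub_cancel_left]

lemma gb_gt (q : K) {m k : ℕ} (h : m < k) : gb q m k = 0 := by
  unfold gb; rw [if_neg (by omega)]

lemma gb_self {q : K} (hq : ∀ i : ℕ, 1 ≤ i → q ^ i ≠ 1) (m : ℕ) : gb q m m = 1 := by
  have := gb_add q m 0
  rw [add_zero, poch_zero, mul_one, div_self (poch_ne_zero hq m)] at this
  exact this

lemma gb_zero {q : K} (hq : ∀ i : ℕ, 1 ≤ i → q ^ i ≠ 1) (m : ℕ) : gb q m 0 = 1 := by
  have := gb_add q 0 m
  rw [zero_add, poch_zero, one_mul, div_self (poch_ne_zero hq m)] at this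
  exact this

section

variable {q : K} (hq : ∀ i : ℕ, 1 ≤ i → q ^ i ≠ 1)
include hq

lemma I1 (m k : ℕ) : gb q (m + 1) (k + 1) = gb q m k + q ^ (k + 1) * gb q m (k + 1) := by
  rcases lt_trichotomy m k with h | h | h
  · rw [gb_gt q h, gb_gt q (show m + 1 < k + 1 by omega), gb_gt q (show m < k + 1 by omega)]
    ring
  · subst h
    rw [gb_self hq, gb_self hq, gb_gt q (Nat.lt_succ_self m)]
    ring
  · obtain ⟨r, rfl⟩ : ∃ r, m = k + 1 + r := ⟨m - (k + 1), by omega⟩
    have e1 : k + 1 + r + 1 = (k + 1) + (r + 1) := by ring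
    have e2 : gb q (k + 1 + r) k = gb q (k + (r + 1)) k := by congr 1; ring
    rw [e1, e2, gb_add, gb_add, gb_add]
    have e3 : k + 1 + (r + 1) = (k + r + 1) + 1 := by ring
    have e4 : k + (r + 1) = k + r + 1 := by ring
    have e5 : k + 1 + r = k + r + 1 := by ring
    rw [e3, e4, e5, poch_succ q (k + r + 1), poch_succ q k, poch_succ q r]
    have h1 := poch_ne_zero hq k
    have h2 := poch_ne_zero hq r
    have h3 := one_sub_ne hq k
    have h4 := one_sub_ne hq r
    field_simp
    ring

lemma I2 (m k : ℕ) : (1 - q ^ (k + 1)) * gb q m (k + 1) = (1 - q ^ (m - k)) * gb q m k := by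
  rcases lt_trichotomy m k with h | h | h
  · rw [gb_gt q h, gb_gt q (show m < k + 1 by omega)]; ring
  · subst h
    rw [gb_gt q (Nat.lt_succ_self m)]; simp
  · obtain ⟨r, rfl⟩ : ∃ r, m = k + 1 + r := ⟨m - (k + 1), by omega⟩
    have e2 : gb q (k + 1 + r) k = gb q (k + (r + 1)) k := by congr 1; ring
    rw [e2, gb_add, gb_add]
    have e4 : k + (r + 1) = k + r + 1 := by ring
    have e5 : k + 1 + r = k + r + 1 := by ring
    have e6 : k + r + 1 - k = r + 1 := by omega
    rw [e4, e5, e6, poch_succ q k, poch_succ q r]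
    have h1 := poch_ne_zero hq k
    have h2 := poch_ne_zero hq r
    have h3 := one_sub_ne hq k
    have h4 := one_sub_ne hq r
    field_simp

lemma I3 (m k : ℕ) : (1 - q ^ (k + 1)) * gb q (m + 1) (k + 1) = (1 - q ^ (m + 1)) * gb q m k := by
  rcases lt_or_ge m k with h | h
  · rw [gb_gt q h, gb_gt q (show m + 1 < k + 1 by omega)]; ring
  · obtain ⟨r, rfl⟩ : ∃ r, m = k + r := ⟨m - k, by omega⟩
    have e1 : k + r + 1 = (k + 1) + r := by ring
    rw [e1, gb_add, gb_add]
    have e3 : k + 1 + r = (k + r) + 1 := by ring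
    rw [e3, poch_succ q (k + r), poch_succ q k]
    have h1 := poch_ne_zero hq k
    have h2 := poch_ne_zero hq r
    have h3 := one_sub_ne hq k
    field_simp

/-- `(1 - q^{m+1-k}) [m+1, k] = (1 - q^{m+1}) [m, k]` for `k ≤ m`. -/
lemma I4 (s r : ℕ) : (1 - q ^ (r + 1)) * gb q (r + s + 1) s = (1 - q ^ (r + s + 1)) * gb q (r + s) s := by
  have e1 : r + s + 1 = s + (r + 1) := by ring
  have e2 : r + s = s + r := by ring
  rw [e1, e2, gb_add, gb_add]
  have e3 : s + (r + 1) = (s + r) + 1 := by ring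
  rw [e3, poch_succ q (s + r), poch_succ q r]
  have h1 := poch_ne_zero hq s
  have h2 := poch_ne_zero hq r
  have h4 := one_sub_ne hq r
  field_simp

end

/-- The Rogers–Szegő polynomial. -/
def gn (a q : K) (r : ℕ) : K := ∑ j ∈ range (r + 1), gb q r j * a ^ j

lemma gn_eq (a q : K) (r N : ℕ) (h : r < N) : gn a q r = ∑ j ∈ range N, gb q r j * a ^ j := by
  unfold gn
  apply Finset.sum_subset
  · intro x hx; rw [mem_range] at *; omega
  · intro x _ hx
    rw [mem_range, not_lt] at hx
    rw [gb_gt q (show r < x by omega), zero_mul]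

section

variable {q : K} (hq : ∀ i : ℕ, 1 ≤ i → q ^ i ≠ 1) (a : K)
include hq

lemma gn_zero : gn a q 0 = 1 := by
  unfold gn; simp [gb_self hq]

lemma gn_one : gn a q 1 = 1 + a := by
  unfold gn
  rw [sum_range_succ, sum_range_one, gb_self hq, gb_zero hq]
  ring

lemma RS (m : ℕ) : gn a q (m + 2) = (1 + a) * gn a q (m + 1) - a * (1 - q ^ (m + 1)) * gn a q m := by
  rw [gn_eq a q (m + 2) (m + 3) (by omega), sum_range_succ', gb_zero hq]
  have h1 : gn a q (m + 1) = ∑ j ∈ range (m + 2), gb q (m + 1) (j + 1) * a ^ (j + 1) + 1 := by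
    rw [gn_eq a q (m + 1) (m + 3) (by omega), sum_range_succ', gb_zero hq]
    ring
  have h2 : a * gn a q (m + 1) = ∑ j ∈ range (m + 2), gb q (m + 1) j * a ^ (j + 1) := by
    rw [gn_eq a q (m + 1) (m + 2) (by omega), mul_sum]
    apply sum_congr rfl
    intro j _
    ring
  have h3 : a * (1 - q ^ (m + 1)) * gn a q m =
      ∑ j ∈ range (m + 2), (1 - q ^ (m + 1)) * gb q m j * a ^ (j + 1) := by
    rw [gn_eq a q m (m + 2) (by omega), mul_sum]
    apply sum_congr rfl
    intro j _
    ring
  have h4 : (1 + a) * gn a q (m + 1) = gn a q (m + 1) + a * gn a q (m + 1) := by ring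
  rw [h4, h3, h2, h1]
  have h5 : ∑ j ∈ range (m + 2), gb q (m + 1 + 1) (j + 1) * a ^ (j + 1) =
      ∑ j ∈ range (m + 2), gb q (m + 1) (j + 1) * a ^ (j + 1) +
      ∑ j ∈ range (m + 2), gb q (m + 1) j * a ^ (j + 1) -
      ∑ j ∈ range (m + 2), (1 - q ^ (m + 1)) * gb q m j * a ^ (j + 1) := by
    rw [← sum_add_distrib, ← sum_sub_distrib]
    apply sum_congr rfl
    intro j _
    have e1 := I1 hq (m + 1) j
    have e2 := I3 hq m j
    linear_combination a ^ (j + 1) * e1 - a ^ (j + 1) * e2
  have h6 : m + 2 = m + 1 + 1 := rfl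
  rw [h6] at h5 ⊢
  rw [h5]
  ring

/-- The coefficients of the monomials in the basis of Al-Salam–Carlitz polynomials. -/
def G (a q : K) (i k : ℕ) : K := gb q i k * gn a q (i - k)

omit hq in
lemma G_gt {i k : ℕ} (h : i < k) : G a q i k = 0 := by
  unfold G; rw [gb_gt q h, zero_mul]

lemma G_self (i : ℕ) : G a q i i = 1 := by
  unfold G; rw [gb_self hq, Nat.sub_self, gn_zero hq, one_mul]

lemma G_zero (i : ℕ) : G a q i 0 = gn a q i := by
  unfold G; rw [gb_zero hq, one_mul, Nat.sub_zero]

lemma R_zero (i : ℕ) : G a q (i + 1) 0 = (1 + a) * G a q i 0 - a * (1 - q) * G a q i 1 := by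
  rcases i with _ | i
  · rw [G_zero hq, G_zero hq, G_gt a (show 0 < 1 by omega), zero_add, gn_one hq, gn_zero hq]
    ring
  · rw [G_zero hq, G_zero hq, RS hq]
    unfold G
    have e := I2 hq (i + 1) 0
    rw [gb_zero hq, zero_add, pow_one, Nat.sub_zero, mul_one] at e
    rw [Nat.add_sub_cancel]
    linear_combination a * gn a q i * e

lemma R_succ (i k : ℕ) : G a q (i + 1) (k + 1) = G a q i k +
    (1 + a) * q ^ (k + 1) * G a q i (k + 1) -
    a * q ^ (k + 1) * (1 - q ^ (k + 2)) * G a q i (k + 2) := by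
  rcases Nat.lt_or_ge i k with h | h
  · rw [G_gt a (show i + 1 < k + 1 by omega), G_gt a h, G_gt a (show i < k + 1 by omega),
      G_gt a (show i < k + 2 by omega)]
    ring
  · obtain ⟨r, rfl⟩ : ∃ r, i = k + r := ⟨i - k, by omega⟩
    rcases r with _ | r
    · rw [add_zero, G_self hq, G_self hq, G_gt a (show k < k + 1 by omega),
        G_gt a (show k < k + 2 by omega)]
      ring
    · rcases r with _ | r
      · unfold G
        have e1 := I1 hq (k + 1) k
        rw [gb_self hq, mul_one] at e1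
        have e2 : k + (0 + 1) + 1 - (k + 1) = 1 := by omega
        have e3 : k + (0 + 1) - k = 1 := by omega
        have e4 : k + (0 + 1) - (k + 1) = 0 := by omega
        have e5 : k + (0 + 1) = k + 1 := by omega
        rw [e2, e3, e4, e5, gn_one hq, gn_zero hq, gb_self hq, gb_gt q (show k + 1 < k + 2 by omega),
          e1]
        ring
      · unfold G
        have e1 := I1 hq (k + (r + 1 + 1)) k
        have e2 : k + (r + 1 + 1) + 1 - (k + 1) = r + 2 := by omega
        have e3 : k + (r + 1 + 1) - k = r + 2 := by omega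
        have e4 : k + (r + 1 + 1) - (k + 1) = r + 1 := by omega
        have e5 : k + (r + 1 + 1) - (k + 2) = r := by omega
        rw [e2, e3, e4, e5, e1, RS hq]
        have e6 := I2 hq (k + (r + 1 + 1)) (k + 1)
        rw [e4] at e6
        have e7 : k + 1 + 1 = k + 2 := rfl
        rw [e7] at e6
        linear_combination a * q ^ (k + 1) * gn a q r * e6

end

/-- The norms of the Al-Salam–Carlitz polynomials. -/
def h (a q : K) (k : ℕ) : K := (-a) ^ k * poch q k * q ^ (k.choose 2)

lemma h_zero (a q : K) : h a q 0 = 1 := by simp [h, poch_zero]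

lemma h_succ (a q : K) (k : ℕ) : h a q (k + 1) = - a * q ^ k * (1 - q ^ (k + 1)) * h a q k := by
  unfold h
  rw [poch_succ, Nat.choose_succ_succ', Nat.choose_one_right, pow_add, pow_succ]
  ring

section

variable {q : K} (hq : ∀ i : ℕ, 1 ≤ i → q ^ i ≠ 1) (a : K)
include hq

lemma H_step (N m n : ℕ) (hm : m ≤ N) :
    ∑ k ∈ range (N + 1), h a q k * G a q n k * G a q (m + 1) k =
    (1 + a) * ∑ k ∈ range (N + 1), q ^ k * h a q k * G a q n k * G a q m k +
      ∑ k ∈ range N, h a q (k + 1) * (G a q n (k + 1) * G a q m k + G a q n k * G a q m (k + 1)) := by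
  have h1 : ∑ k ∈ range (N + 1), h a q k * G a q n k * G a q (m + 1) k =
      (1 + a) * ∑ k ∈ range (N + 1), q ^ k * h a q k * G a q n k * G a q m k +
      ∑ k ∈ range N, h a q (k + 1) * (G a q n (k + 1) * G a q m k) +
      ∑ k ∈ range (N + 1), h a q (k + 1) * (G a q n k * G a q m (k + 1)) := by
    rw [sum_range_succ' (fun k => h a q k * G a q n k * G a q (m + 1) k),
      sum_range_succ' (fun k => q ^ k * h a q k * G a q n k * G a q m k),
      sum_range_succ' (fun k => h a q (k + 1) * (G a q n k * G a q m (k + 1))), R_zero hq]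
    have h2 : ∑ k ∈ range N, h a q (k + 1) * G a q n (k + 1) * G a q (m + 1) (k + 1) =
      (1 + a) * ∑ k ∈ range N, q ^ (k + 1) * h a q (k + 1) * G a q n (k + 1) * G a q m (k + 1) +
      ∑ k ∈ range N, h a q (k + 1) * (G a q n (k + 1) * G a q m k) +
      ∑ k ∈ range N, h a q (k + 1 + 1) * (G a q n (k + 1) * G a q m (k + 1 + 1)) := by
      rw [mul_sum, ← sum_add_distrib, ← sum_add_distrib]
      apply sum_congr rfl
      intro k _
      rw [R_succ hq, h_succ a q (k + 1)]
      ring
    rw [h2, h_succ a q 0]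
    ring
  rw [h1, sum_range_succ (fun k => h a q (k + 1) * (G a q n k * G a q m (k + 1))),
    G_gt a (show m < N + 1 by omega)]
  simp only [mul_add, sum_add_distrib]
  ring

lemma H_swap (N m n : ℕ) (hm : m ≤ N) (hn : n ≤ N) :
    ∑ k ∈ range (N + 1), h a q k * G a q n k * G a q (m + 1) k =
    ∑ k ∈ range (N + 1), h a q k * G a q (n + 1) k * G a q m k := by
  have h1 := H_step hq a N m n hm
  have h2 := H_step hq a N n m hn
  rw [h1]
  have h3 : ∑ k ∈ range (N + 1), h a q k * G a q (n + 1) k * G a q m k =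
      ∑ k ∈ range (N + 1), h a q k * G a q m k * G a q (n + 1) k := by
    apply sum_congr rfl; intro k _; ring
  rw [h3, h2]
  congr 1
  · congr 1
    apply sum_congr rfl; intro k _; ring
  · apply sum_congr rfl; intro k _; ring

lemma H_big (m : ℕ) : ∀ (n N : ℕ), m + n ≤ N →
    ∑ k ∈ range (N + 1), h a q k * G a q n k * G a q m k = gn a q (m + n) := by
  induction m with
  | zero =>
    intro n N hN
    rw [Finset.sum_eq_single 0]
    · rw [h_zero, G_zero hq, G_self hq, zero_add]; ring
    · intro k _ hk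
      rw [G_gt a (show 0 < k by omega)]; ring
    · simp
  | succ m ih =>
    intro n N hN
    rw [H_swap hq a N m n (by omega) (by omega), ih (n + 1) N (by omega)]
    congr 1
    ring

/-- The Hankel matrix of the moments. -/
lemma H (m n N : ℕ) (hN : m < N) :
    ∑ k ∈ range N, h a q k * G a q n k * G a q m k = gn a q (m + n) := by
  rw [← H_big hq a m n (m + n + N) (by omega)]
  apply Finset.sum_subset
  · intro x hx; rw [mem_range] at *; omega
  · intro x _ hx
    rw [mem_range, not_lt] at hx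
    rw [G_gt a (show m < x by omega), mul_zero]

/-- `∑ (1 - q^{k+1}) h_k G(i,k) G(j,k+1) = (1 - q^j) g_{i+j-1}`. -/
lemma T_eq (i j N : ℕ) (hj : j < N + 1) :
    ∑ k ∈ range N, (1 - q ^ (k + 1)) * h a q k * G a q i k * G a q j (k + 1) =
      (1 - q ^ j) * gn a q (i + j - 1) := by
  rcases j with _ | j
  · rw [pow_zero, sub_self, zero_mul]
    apply sum_eq_zero
    intro k _
    rw [G_gt a (show 0 < k + 1 by omega), mul_zero]
  · have e : i + (j + 1) - 1 = j + i := by omega
    rw [e, ← H hq a j i N (by omega), mul_sum]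
    apply sum_congr rfl
    intro k _
    have h1 := I3 hq j k
    unfold G
    have e2 : j + 1 - (k + 1) = j - k := by omega
    rw [e2]
    linear_combination h a q k * (gb q i k * gn a q (i - k)) * gn a q (j - k) * h1

end

/-- The first banded matrix. -/
def D1 (a q : K) (x y : ℕ) : K :=
  if y = x + 1 then (1 - q ^ (x + 1)) * h a q x else
  if x = y + 1 then - ((1 - q ^ (y + 1)) * h a q y) else 0

/-- The second banded matrix. -/
def D2 (a q : K) (x y : ℕ) : K :=
  if y = x + 1 then (1 + a) * q ^ x * (1 - q ^ (x + 1)) * h a q x else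
  if x = y + 1 then - ((1 + a) * q ^ y * (1 - q ^ (y + 1)) * h a q y) else
  if y = x + 2 then (1 - q ^ (x + 2)) * h a q (x + 1) else
  if x = y + 2 then - ((1 - q ^ (y + 2)) * h a q (y + 1)) else 0

lemma D1_anti (a q : K) (x y : ℕ) : D1 a q x y = - D1 a q y x := by
  unfold D1
  split_ifs <;> first | omega | ring

lemma D2_anti (a q : K) (x y : ℕ) : D2 a q x y = - D2 a q y x := by
  unfold D2
  split_ifs <;> first | omega | ring

/-- Sums over one superdiagonal. -/
lemma sum_super (N d : ℕ) (u v : ℕ → K) (f : ℕ → K) :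
    ∑ x ∈ range N, ∑ y ∈ range N, (if y = x + d then u x * f x * v y else 0) =
      ∑ x ∈ range (N - d), u x * f x * v (x + d) := by
  have h1 : ∀ x ∈ range N, (∑ y ∈ range N, (if y = x + d then u x * f x * v y else 0)) =
      if x + d < N then u x * f x * v (x + d) else 0 := by
    intro x _
    rw [Finset.sum_ite_eq' (range N) (x + d) (fun y => u x * f x * v y)]
    simp only [mem_range]
  rw [Finset.sum_congr rfl h1, ← Finset.sum_filter]
  apply Finset.sum_congr _ (fun _ _ => rfl)
  ext x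
  simp only [mem_filter, mem_range]
  omega

end Pool.Agent.Zk81.Pf
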