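import Mathlib

/-!
Unnormalised Pfaffians by the sum over all permutations, and their expansion.
-/

set_option autoImplicit false

namespace Pool.Agent.Zk81.Pf

open Finset Equiv

variable {K : Type*} [Field K] {I : Type*}

/-- The sum over all permutations defining `2 ^ n n!` times the Pfaffian. -/
def S (A : I → I → K) (n : ℕ) (w : Fin (2 * n) → I) : K :=
  ∑ σ : Perm (Fin (2 * n)), ((Perm.sign σ : ℤ) : K) *
    ∏ k : Fin n, A (w (σ ⟨2 * (k : ℕ), by omega⟩)) (w (σ ⟨2 * (k : ℕ) + 1, by omega⟩))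

/-- The product belonging to one permutation. -/
def W (A : I → I → K) (n : ℕ) (w : Fin (2 * n) → I) (σ : Perm (Fin (2 * n))) : K :=
  ∏ k : Fin n, A (w (σ ⟨2 * (k : ℕ), by omega⟩)) (w (σ ⟨2 * (k : ℕ) + 1, by omega⟩))

lemma W_swap01 (A : I → I → K) (hA : ∀ x y, A x y = - A y x) (n : ℕ)
    (w : Fin (2 * (n + 1)) → I) (σ : Perm (Fin (2 * (n + 1)))) :
    W A (n + 1) w (σ * swap ⟨0, by omega⟩ ⟨1, by omega⟩) = - W A (n + 1) w σ := by
  unfold W
  rw [Fin.prod_univ_succ, Fin.prod_univ_succ, ← neg_mul]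
  refine congrArg₂ (· * ·) ?_ ?_
  · simp only [Perm.coe_mul, Function.comp_apply, Fin.val_zero, mul_zero, zero_add]
    rw [swap_apply_left, swap_apply_right, hA]
  · apply Finset.prod_congr rfl
    intro k _
    simp only [Perm.coe_mul, Function.comp_apply]
    have h1 : (swap (⟨0, by omega⟩ : Fin (2 * (n + 1))) ⟨1, by omega⟩)
        ⟨2 * ((k.succ : Fin (n + 1)) : ℕ), by omega⟩ =
          ⟨2 * ((k.succ : Fin (n + 1)) : ℕ), by omega⟩ := by
      apply swap_apply_of_ne_of_ne
      · intro h; have := congrArg Fin.val h; simp at this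
      · intro h; have := congrArg Fin.val h; simp at this
    have h2 : (swap (⟨0, by omega⟩ : Fin (2 * (n + 1))) ⟨1, by omega⟩)
        ⟨2 * ((k.succ : Fin (n + 1)) : ℕ) + 1, by omega⟩ =
          ⟨2 * ((k.succ : Fin (n + 1)) : ℕ) + 1, by omega⟩ := by
      apply swap_apply_of_ne_of_ne
      · intro h; have := congrArg Fin.val h; simp at this
      · intro h; have := congrArg Fin.val h; simp at this
    rw [h1, h2]

/-- The permutation of the slots exchanging the pair `0` with the pair `k`. -/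
def pairSwap (n : ℕ) (k : Fin (n + 1)) : Perm (Fin (2 * (n + 1))) :=
  swap ⟨0, by omega⟩ ⟨2 * (k : ℕ), by omega⟩ * swap ⟨1, by omega⟩ ⟨2 * (k : ℕ) + 1, by omega⟩

lemma pairSwap_even (n : ℕ) (k j : Fin (n + 1)) :
    pairSwap n k ⟨2 * (j : ℕ), by omega⟩ = ⟨2 * ((swap 0 k j : Fin (n + 1)) : ℕ), by omega⟩ := by
  unfold pairSwap
  simp only [Perm.coe_mul, Function.comp_apply]
  have h1 : (swap (⟨1, by omega⟩ : Fin (2 * (n + 1))) ⟨2 * (k : ℕ) + 1, by omega⟩)
      ⟨2 * (j : ℕ), by omega⟩ = ⟨2 * (j : ℕ), by omega⟩ := by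
    apply swap_apply_of_ne_of_ne
    · intro h; have := congrArg Fin.val h; simp at this
    · intro h; have := congrArg Fin.val h; simp at this; omega
  rw [h1]
  by_cases h0 : j = 0
  · subst h0
    simp only [swap_apply_left, Fin.val_zero, mul_zero]
  · by_cases hk : j = k
    · subst hk
      simp only [swap_apply_right, Fin.val_zero, mul_zero]
    · simp only [swap_apply_of_ne_of_ne h0 hk]
      apply swap_apply_of_ne_of_ne
      · intro h; have := congrArg Fin.val h; simp at this; exact h0 this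
      · intro h; have := congrArg Fin.val h; simp at this; exact hk (Fin.ext this)

lemma pairSwap_odd (n : ℕ) (k j : Fin (n + 1)) :
    pairSwap n k ⟨2 * (j : ℕ) + 1, by omega⟩ =
      ⟨2 * ((swap 0 k j : Fin (n + 1)) : ℕ) + 1, by omega⟩ := by
  unfold pairSwap
  simp only [Perm.coe_mul, Function.comp_apply]
  have h2 : ∀ m : ℕ, ∀ hm : 2 * m + 1 < 2 * (n + 1),
      (swap (⟨0, by omega⟩ : Fin (2 * (n + 1))) ⟨2 * (k : ℕ), by omega⟩)
      ⟨2 * m + 1, hm⟩ = ⟨2 * m + 1, hm⟩ := by
    intro m hm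
    apply swap_apply_of_ne_of_ne
    · intro h; have := congrArg Fin.val h; simp at this
    · intro h; have := congrArg Fin.val h; simp at this; omega
  have h1 : (swap (⟨1, by omega⟩ : Fin (2 * (n + 1))) ⟨2 * (k : ℕ) + 1, by omega⟩)
      ⟨2 * (j : ℕ) + 1, by omega⟩ =
        ⟨2 * ((swap 0 k j : Fin (n + 1)) : ℕ) + 1, by omega⟩ := by
    by_cases h0 : j = 0
    · subst h0
      simp only [Fin.val_zero, mul_zero, zero_add, swap_apply_left]
    · by_cases hk : j = k
      · subst hk
        simp only [swap_apply_right, Fin.val_zero, mul_zero, zero_add]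
      · simp only [swap_apply_of_ne_of_ne h0 hk]
        apply swap_apply_of_ne_of_ne
        · intro h; have := congrArg Fin.val h; simp at this; exact h0 this
        · intro h; have := congrArg Fin.val h; simp at this; exact hk (Fin.ext this)
  rw [h1, h2]

lemma W_pairSwap (A : I → I → K) (n : ℕ) (k : Fin (n + 1))
    (w : Fin (2 * (n + 1)) → I) (σ : Perm (Fin (2 * (n + 1)))) :
    W A (n + 1) w (σ * pairSwap n k) = W A (n + 1) w σ := by
  unfold W
  simp only [Perm.coe_mul, Function.comp_apply, pairSwap_even, pairSwap_odd]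
  exact Equiv.prod_comp (swap 0 k)
    (fun j : Fin (n + 1) => A (w (σ ⟨2 * (j : ℕ), by omega⟩)) (w (σ ⟨2 * (j : ℕ) + 1, by omega⟩)))

lemma sign_pairSwap (n : ℕ) (k : Fin (n + 1)) : Perm.sign (pairSwap n k) = 1 := by
  unfold pairSwap
  by_cases hk : k = 0
  · subst hk
    simp
  · have hk' : (k : ℕ) ≠ 0 := fun h => hk (Fin.ext h)
    rw [Perm.sign_mul, Perm.sign_swap, Perm.sign_swap]
    · rfl
    · intro h; have := congrArg Fin.val h; simp at this; omega
    · intro h; have := congrArg Fin.val h; simp at this; omega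

/-- For every slot `s` there is a permutation of the slots moving `0` to `s`, which changes the
product by its sign. -/
lemma exists_slot (A : I → I → K) (hA : ∀ x y, A x y = - A y x) (n : ℕ)
    (w : Fin (2 * (n + 1)) → I) (s : Fin (2 * (n + 1))) :
    ∃ π : Perm (Fin (2 * (n + 1))), π ⟨0, by omega⟩ = s ∧
      ∀ σ, W A (n + 1) w (σ * π) = ((Perm.sign π : ℤ) : K) * W A (n + 1) w σ := by
  obtain ⟨k, hk⟩ : ∃ k : Fin (n + 1), (s : ℕ) = 2 * k ∨ (s : ℕ) = 2 * k + 1 := by
    refine ⟨⟨(s : ℕ) / 2, by omega⟩, ?_⟩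
    simp only
    omega
  rcases hk with hk | hk
  · refine ⟨pairSwap n k, ?_, fun σ => ?_⟩
    · have := pairSwap_even n k 0
      simp only [Fin.val_zero, mul_zero, swap_apply_left] at this
      rw [this]
      exact Fin.ext hk.symm
    · rw [W_pairSwap, sign_pairSwap]; simp
  · refine ⟨pairSwap n k * swap ⟨0, by omega⟩ ⟨1, by omega⟩, ?_, fun σ => ?_⟩
    · have := pairSwap_odd n k 0
      simp only [Fin.val_zero, mul_zero, zero_add, swap_apply_left] at this
      rw [Perm.coe_mul, Function.comp_apply, swap_apply_left, this]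
      exact Fin.ext hk.symm
    · rw [← mul_assoc, W_swap01 A hA, W_pairSwap, Perm.sign_mul, sign_pairSwap, Perm.sign_swap]
      · simp
      · intro h; have := congrArg Fin.val h; simp at this

lemma S_eq_sum_fix (A : I → I → K) (hA : ∀ x y, A x y = - A y x) (n : ℕ)
    (w : Fin (2 * (n + 1)) → I) :
    S A (n + 1) w = (2 * (n : K) + 2) *
      ∑ σ : Perm (Fin (2 * (n + 1))), if σ ⟨0, by omega⟩ = ⟨0, by omega⟩ then
        ((Perm.sign σ : ℤ) : K) * W A (n + 1) w σ else 0 := by
  have h1 : S A (n + 1) w = ∑ s : Fin (2 * (n + 1)), ∑ σ : Perm (Fin (2 * (n + 1))),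
      if σ s = ⟨0, by omega⟩ then ((Perm.sign σ : ℤ) : K) * W A (n + 1) w σ else 0 := by
    rw [Finset.sum_comm]
    unfold S
    apply Finset.sum_congr rfl
    intro σ _
    rw [Finset.sum_eq_single (σ⁻¹ ⟨0, by omega⟩)]
    · simp [W]
    · intro s _ hs
      rw [if_neg]
      intro h
      apply hs
      rw [← h]; simp
    · simp
  have h2 : ∀ s : Fin (2 * (n + 1)), (∑ σ : Perm (Fin (2 * (n + 1))),
      if σ s = ⟨0, by omega⟩ then ((Perm.sign σ : ℤ) : K) * W A (n + 1) w σ else 0) =
      ∑ σ : Perm (Fin (2 * (n + 1))), if σ ⟨0, by omega⟩ = ⟨0, by omega⟩ then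
        ((Perm.sign σ : ℤ) : K) * W A (n + 1) w σ else 0 := by
    intro s
    obtain ⟨π, h0, hπ⟩ := exists_slot A hA n w s
    symm
    rw [← Equiv.sum_comp (Equiv.mulRight π)]
    apply Finset.sum_congr rfl
    intro σ _
    simp only [Equiv.coe_mulRight, Perm.coe_mul, Function.comp_apply, h0]
    split_ifs with h
    · rw [hπ, Perm.sign_mul, ← mul_assoc]
      congr 1
      rcases Int.units_eq_one_or (Perm.sign π) with h1 | h1 <;> rw [h1] <;> simp
    · rfl
  rw [h1, Finset.sum_congr rfl (fun s _ => h2 s), Finset.sum_const, Finset.card_univ,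
    Fintype.card_fin, nsmul_eq_mul]
  push_cast
  ring

lemma W_decompose (A : I → I → K) (n : ℕ) (w : Fin (2 * n + 1 + 1) → I)
    (p : Fin (2 * n + 1)) (e : Perm (Fin (2 * n))) :
    W A (n + 1) w (Perm.decomposeFin.symm ((0 : Fin (2 * n + 1 + 1)),
      Perm.decomposeFin.symm (p, e))) =
    A (w 0) (w p.succ) * W A n (fun x => w ((swap 0 p x.succ).succ)) e := by
  unfold W
  rw [Fin.prod_univ_succ]
  congr 1
  · have h1 : ((Perm.decomposeFin.symm ((0 : Fin (2 * n + 1 + 1)),
        Perm.decomposeFin.symm (p, e))) (0 : Fin (2 * n + 1 + 1))) = 0 := by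
      exact Perm.decomposeFin_symm_apply_zero _ _
    have h2 : ((Perm.decomposeFin.symm ((0 : Fin (2 * n + 1 + 1)),
        Perm.decomposeFin.symm (p, e))) (Fin.succ (0 : Fin (2 * n + 1)))) = p.succ := by
      rw [Perm.decomposeFin_symm_apply_succ]
      rw [Perm.decomposeFin_symm_apply_zero]
      simp
    exact congrArg₂ A (congrArg w h1) (congrArg w h2)
  · apply Finset.prod_congr rfl
    intro k _
    have h3 : ∀ x : Fin (2 * n), ((Perm.decomposeFin.symm ((0 : Fin (2 * n + 1 + 1)),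
        Perm.decomposeFin.symm (p, e))) (Fin.succ (Fin.succ x))) =
          (swap 0 p (e x).succ).succ := by
      intro x
      rw [Perm.decomposeFin_symm_apply_succ, Perm.decomposeFin_symm_apply_succ]
      simp
    have h4 := h3 ⟨2 * (k : ℕ), by omega⟩
    have h5 := h3 ⟨2 * (k : ℕ) + 1, by omega⟩
    exact congrArg₂ A (congrArg w h4) (congrArg w h5)

/-- Expansion of the (unnormalised) Pfaffian along the first row. -/
theorem S_expand (A : I → I → K) (hA : ∀ x y, A x y = - A y x) (n : ℕ)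
    (w : Fin (2 * n + 1 + 1) → I) :
    S A (n + 1) w = (2 * (n : K) + 2) * ∑ p : Fin (2 * n + 1), (if p = 0 then 1 else -1) *
      (A (w 0) (w p.succ) * S A n (fun x => w ((swap 0 p x.succ).succ))) := by
  rw [S_eq_sum_fix A hA]
  congr 1
  have key := (Equiv.sum_comp (Perm.decomposeFin (n := 2 * n + 1)).symm
    (fun σ : Perm (Fin (2 * n + 1 + 1)) => if σ 0 = 0 then
        ((Perm.sign σ : ℤ) : K) * W A (n + 1) w σ else 0)).symm
  refine key.trans ?_
  rw [Fintype.sum_prod_type, Finset.sum_eq_single (0 : Fin (2 * n + 1 + 1))]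
  · rw [← Equiv.sum_comp (Perm.decomposeFin (n := 2 * n)).symm, Fintype.sum_prod_type]
    apply Finset.sum_congr rfl
    intro p _
    have hS : S A n (fun x => w ((swap 0 p x.succ).succ)) = ∑ e : Perm (Fin (2 * n)),
      ((Perm.sign e : ℤ) : K) * W A n (fun x => w ((swap 0 p x.succ).succ)) e := rfl
    rw [hS, Finset.mul_sum, Finset.mul_sum]
    apply Finset.sum_congr rfl
    intro e _
    rw [Perm.decomposeFin_symm_apply_zero, if_pos rfl, W_decompose, Perm.decomposeFin.symm_sign,
      Perm.decomposeFin.symm_sign, if_pos rfl, one_mul]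
    split_ifs <;> push_cast <;> ring
  · intro p _ hp
    apply Finset.sum_eq_zero
    intro e _
    rw [Perm.decomposeFin_symm_apply_zero, if_neg hp]
  · simp

/-- Reversal of the order of the rows. -/
theorem S_rev (A : I → I → K) (n : ℕ) (w : Fin (2 * n) → I) :
    S A n w = S (fun x y => A y x) n (fun i => w i.rev) := by
  unfold S
  rw [← Equiv.sum_comp (Equiv.permCongr (Fin.revPerm (n := 2 * n)))]
  apply Finset.sum_congr rfl
  intro σ _
  rw [Equiv.Perm.sign_permCongr]
  congr 1
  rw [← Equiv.prod_comp (Fin.revPerm (n := n))]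
  apply Finset.prod_congr rfl
  intro k _
  simp only [Equiv.permCongr_apply, Fin.revPerm_symm, Fin.revPerm_apply]
  have h1 : (Fin.rev (⟨2 * ((Fin.rev k : Fin n) : ℕ), by omega⟩ : Fin (2 * n))) =
      ⟨2 * (k : ℕ) + 1, by omega⟩ := by
    apply Fin.ext
    simp only [Fin.val_rev]
    omega
  have h2 : (Fin.rev (⟨2 * ((Fin.rev k : Fin n) : ℕ) + 1, by omega⟩ : Fin (2 * n))) =
      ⟨2 * (k : ℕ), by omega⟩ := by
    apply Fin.ext
    simp only [Fin.val_rev]
    omega
  rw [h1, h2]

end Pool.Agent.Zk81.Pf
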