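import Pool.Agent.Zk81.Pf.Basic

/-!
Change of basis for unnormalised Pfaffians, and a recursion for pentadiagonal matrices.
-/

set_option autoImplicit false

namespace Pool.Agent.Zk81.Pf

open Finset Equiv

variable {K : Type*} [Field K]

section Multi

variable {V : Type*} [AddCommGroup V] [Module K V]

lemma prod_update (B : V →ₗ[K] V →ₗ[K] K) (n : ℕ) (v : Fin (2 * n) → V) (i : Fin (2 * n)) :
    ∃ L : V →ₗ[K] K, ∀ x : V, ∏ k : Fin n, B (Function.update v i x ⟨2 * (k : ℕ), by omega⟩)
      (Function.update v i x ⟨2 * (k : ℕ) + 1, by omega⟩) = L x := by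
  obtain ⟨k, hk⟩ : ∃ k : Fin n, (i : ℕ) = 2 * k ∨ (i : ℕ) = 2 * k + 1 := by
    refine ⟨⟨(i : ℕ) / 2, by omega⟩, ?_⟩
    simp only
    omega
  have hne : ∀ j : Fin n, j ≠ k → ∀ x : V,
      B (Function.update v i x ⟨2 * (j : ℕ), by omega⟩)
      (Function.update v i x ⟨2 * (j : ℕ) + 1, by omega⟩) =
      B (v ⟨2 * (j : ℕ), by omega⟩) (v ⟨2 * (j : ℕ) + 1, by omega⟩) := by
    intro j hj x
    have hj' : (j : ℕ) ≠ k := fun h => hj (Fin.ext h)
    rw [Function.update_of_ne, Function.update_of_ne]
    · intro h; have := congrArg Fin.val h; simp only at this; omega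
    · intro h; have := congrArg Fin.val h; simp only at this; omega
  have hprod : ∀ x : V, ∏ k : Fin n, B (Function.update v i x ⟨2 * (k : ℕ), by omega⟩)
      (Function.update v i x ⟨2 * (k : ℕ) + 1, by omega⟩) =
      B (Function.update v i x ⟨2 * (k : ℕ), by omega⟩)
      (Function.update v i x ⟨2 * (k : ℕ) + 1, by omega⟩) *
      ∏ j ∈ univ.erase k, B (v ⟨2 * (j : ℕ), by omega⟩) (v ⟨2 * (j : ℕ) + 1, by omega⟩) := by
    intro x
    rw [← Finset.mul_prod_erase univ _ (mem_univ k)]
    congr 1
    apply Finset.prod_congr rfl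
    intro j hj
    exact hne j (Finset.ne_of_mem_erase hj) x
  set c := ∏ j ∈ univ.erase k, B (v ⟨2 * (j : ℕ), by omega⟩) (v ⟨2 * (j : ℕ) + 1, by omega⟩) with hc
  rcases hk with hk | hk
  · refine ⟨c • (B.flip (v ⟨2 * (k : ℕ) + 1, by omega⟩)), fun x => ?_⟩
    rw [hprod]
    have e1 : ∀ h, Function.update v i x ⟨2 * (k : ℕ), h⟩ = x := by
      intro h
      have : (⟨2 * (k : ℕ), h⟩ : Fin (2 * n)) = i := Fin.ext hk.symm
      rw [this, Function.update_self]
    rw [e1, Function.update_of_ne]
    · simp [mul_comm]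
    · intro h; have := congrArg Fin.val h; simp only at this; omega
  · refine ⟨c • (B (v ⟨2 * (k : ℕ), by omega⟩)), fun x => ?_⟩
    rw [hprod]
    have e1 : ∀ h, Function.update v i x ⟨2 * (k : ℕ) + 1, h⟩ = x := by
      intro h
      have : (⟨2 * (k : ℕ) + 1, h⟩ : Fin (2 * n)) = i := Fin.ext hk.symm
      rw [this, Function.update_self]
    rw [e1, Function.update_of_ne]
    · simp [mul_comm]
    · intro h; have := congrArg Fin.val h; simp only at this; omega

/-- The product of the values on the consecutive pairs, as a multilinear map. -/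
def prodMap (B : V →ₗ[K] V →ₗ[K] K) (n : ℕ) :
    MultilinearMap K (fun _ : Fin (2 * n) => V) K where
  toFun v := ∏ k : Fin n, B (v ⟨2 * (k : ℕ), by omega⟩) (v ⟨2 * (k : ℕ) + 1, by omega⟩)
  map_update_add' := by
    intro hd v i x y
    have e : hd = instDecidableEqFin (2 * n) := Subsingleton.elim _ _
    subst e
    obtain ⟨L, hL⟩ := prod_update B n v i
    rw [hL, hL, hL, map_add]
  map_update_smul' := by
    intro hd v i c x
    have e : hd = instDecidableEqFin (2 * n) := Subsingleton.elim _ _
    subst e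
    obtain ⟨L, hL⟩ := prod_update B n v i
    rw [hL, hL, map_smul]

lemma S_eq_alternatization (B : V →ₗ[K] V →ₗ[K] K) (n : ℕ) (v : Fin (2 * n) → V) :
    S (fun x y => B x y) n v = MultilinearMap.alternatization (prodMap B n) v := by
  rw [MultilinearMap.alternatization_apply]
  unfold S
  apply Finset.sum_congr rfl
  intro σ _
  rw [MultilinearMap.domDomCongr_apply]
  simp only [prodMap, MultilinearMap.coe_mk]
  rw [Units.smul_def, zsmul_eq_mul]

end Multi

lemma S_congr {I J : Type*} (A : I → I → K) (B : J → J → K) (n : ℕ) (w : Fin (2 * n) → I)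
    (v : Fin (2 * n) → J) (h : ∀ i j, A (w i) (w j) = B (v i) (v j)) : S A n w = S B n v := by
  unfold S
  apply Finset.sum_congr rfl
  intro σ _
  congr 1
  apply Finset.prod_congr rfl
  intro k _
  rw [h]

/-- Change of basis by a unitriangular matrix. -/
theorem S_change (M D G : ℕ → ℕ → K) (n : ℕ)
    (hG : ∀ i j, i < j → G i j = 0) (hG1 : ∀ i, G i i = 1)
    (h : ∀ i < 2 * n, ∀ j < 2 * n, M i j =
      ∑ a ∈ range (2 * n), ∑ b ∈ range (2 * n), G i a * D a b * G j b) :
    S M n (fun i => (i : ℕ)) = S D n (fun i => (i : ℕ)) := by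
  set Dm : Matrix (Fin (2 * n)) (Fin (2 * n)) K := Matrix.of fun a b => D a b with hDm
  set B : (Fin (2 * n) → K) →ₗ[K] (Fin (2 * n) → K) →ₗ[K] K := Matrix.toLinearMap₂' K Dm with hB
  set Gm : Matrix (Fin (2 * n)) (Fin (2 * n)) K := Matrix.of fun i a => G i a with hGm
  have h1 : S M n (fun i => (i : ℕ)) = S (fun x y => B x y) n (fun i => Gm i) := by
    apply S_congr
    intro i j
    rw [h i i.2 j j.2, hB, Matrix.toLinearMap₂'_apply, ← Fin.sum_univ_eq_sum_range
      (fun a => ∑ b ∈ range (2 * n), G i a * D a b * G j b)]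
    apply Finset.sum_congr rfl
    intro a _
    rw [← Fin.sum_univ_eq_sum_range (fun b => G i a * D a b * G j b)]
    apply Finset.sum_congr rfl
    intro b _
    simp only [hGm, hDm, Matrix.of_apply, smul_eq_mul]
    ring
  have h2 : S D n (fun i => (i : ℕ)) = S (fun x y => B x y) n (fun i => Pi.basisFun K _ i) := by
    apply S_congr
    intro i j
    rw [hB, Pi.basisFun_apply, Pi.basisFun_apply, Matrix.toLinearMap₂'_apply]
    simp [hDm, Pi.single_apply]
  rw [h1, h2, S_eq_alternatization, S_eq_alternatization]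
  have h3 := AlternatingMap.eq_smul_basis_det (Pi.basisFun K (Fin (2 * n)))
    (MultilinearMap.alternatization (prodMap B n))
  have h4 := congrArg (fun f => f (fun i => Gm i)) h3
  simp only [AlternatingMap.smul_apply] at h4
  rw [Pi.basisFun_det_apply] at h4
  have h5 : Matrix.det (Matrix.of fun i => Gm i) = 1 := by
    have h6 : (Matrix.of fun i => Gm i) = Gm := rfl
    rw [h6, Matrix.det_of_isLowerTriangular]
    · simp [hGm, hG1]
    · intro i j hij
      exact hG i j hij
  rw [h5, smul_eq_mul, mul_one] at h4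
  exact h4

lemma sum_two (m : ℕ) (f : Fin (m + 1) → K) (hm : 1 ≤ m)
    (h : ∀ i : Fin (m + 1), 2 ≤ (i : ℕ) → f i = 0) : ∑ i, f i = f 0 + f ⟨1, by omega⟩ := by
  rw [Finset.sum_eq_add (0 : Fin (m + 1)) ⟨1, by omega⟩]
  · intro h; have := congrArg Fin.val h; simp at this
  · intro c _ hc
    apply h
    have h1 : (c : ℕ) ≠ 0 := fun h => hc.1 (Fin.ext h)
    have h2 : (c : ℕ) ≠ 1 := fun h => hc.2 (Fin.ext h)
    omega
  · simp
  · simp

/-- Recursion for the (unnormalised) Pfaffian of a matrix with two superdiagonals. -/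
theorem S_penta (D : ℕ → ℕ → K) (hD : ∀ x y, D x y = - D y x)
    (hz : ∀ x y, x + 2 < y → D x y = 0) (n : ℕ) :
    S D (n + 2) (fun i => (i : ℕ)) = (2 * ((n : K) + 1) + 2) *
      (D (2 * n + 2) (2 * n + 3) * S D (n + 1) (fun i => (i : ℕ)) -
        D (2 * n + 1) (2 * n + 3) * ((2 * (n : K) + 2) * (D (2 * n) (2 * n + 2) *
          S D n (fun i => (i : ℕ))))) := by
  set A : ℕ → ℕ → K := fun x y => D y x with hA
  have hAs : ∀ x y, A x y = - A y x := fun x y => hD y x
  have hrev : ∀ m : ℕ, S D m (fun i => (i : ℕ)) = S A m (fun i : Fin (2 * m) => 2 * m - 1 - (i : ℕ)) := by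
    intro m
    rw [S_rev]
    apply S_congr
    intro i j
    simp only [hA, Fin.val_rev]
    congr 1 <;> omega
  have hz' : ∀ x y, y + 2 < x → A x y = 0 := fun x y h => hz y x h
  have exp2 : ∀ (m : ℕ) (w : Fin (2 * (m + 1) + 1 + 1) → ℕ),
      (∀ i : Fin (2 * (m + 1) + 1), 2 ≤ (i : ℕ) → w i.succ + 2 < w 0) →
      S A (m + 2) w = (2 * ((m : K) + 1) + 2) *
        (A (w 0) (w ⟨1, by omega⟩) * S A (m + 1) (fun x => w ⟨(x : ℕ) + 2, by omega⟩) -
         A (w 0) (w ⟨2, by omega⟩) * S A (m + 1) (fun x => w (if (x : ℕ) = 0 then ⟨1, by omega⟩ else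
          ⟨(x : ℕ) + 2, by omega⟩))) := by
    intro m w hw
    refine (S_expand A hAs (m + 1) w).trans ?_
    rw [sum_two (2 * (m + 1)) _ (by omega)]
    · push_cast
      congr 1
      rw [if_pos rfl, if_neg, sub_eq_add_neg]
      · congr 1
        · rw [one_mul]
          refine congrArg₂ (· * ·) rfl ?_
          apply S_congr
          intro i j
          have : ∀ i : Fin (2 * (m + 1)), (((swap 0 0) (Fin.succ i)).succ :
              Fin (2 * (m + 1) + 1 + 1)) = ⟨(i : ℕ) + 2, by omega⟩ := by
            intro i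
            apply Fin.ext
            simp
          rw [this, this]
        · rw [neg_mul, one_mul]
          congr 1
          congr 1
          apply S_congr
          intro i j
          have : ∀ i : Fin (2 * (m + 1)), (((swap (0 : Fin (2 * (m + 1) + 1)) ⟨1, by omega⟩)
              (Fin.succ i)).succ : Fin (2 * (m + 1) + 1 + 1)) =
                if (i : ℕ) = 0 then ⟨1, by omega⟩ else ⟨(i : ℕ) + 2, by omega⟩ := by
            intro i
            split_ifs with h
            · have e : (Fin.succ i : Fin (2 * (m + 1) + 1)) = ⟨1, by omega⟩ := by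
                apply Fin.ext
                simp [h]
              rw [e, swap_apply_right]
              rfl
            · rw [swap_apply_of_ne_of_ne]
              · apply Fin.ext
                simp
              · exact Fin.succ_ne_zero _
              · intro h'
                have := congrArg Fin.val h'
                simp only [Fin.val_succ] at this
                omega
          rw [this, this]
      · intro h; have := congrArg Fin.val h; simp at this
    · intro i hi
      rw [hz' _ _ (hw i hi)]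
      ring
  rw [hrev (n + 2)]
  have e1 := exp2 n (fun i : Fin (2 * (n + 1) + 1 + 1) => 2 * (n + 2) - 1 - (i : ℕ)) (by
    intro i hi
    simp only [Fin.val_succ, Fin.val_zero]
    have := i.2
    omega)
  refine e1.trans ?_
  congr 1
  have c1 : A (2 * (n + 2) - 1 - ((0 : Fin (2 * (n + 1) + 1 + 1)) : ℕ))
      (2 * (n + 2) - 1 - 1) = D (2 * n + 2) (2 * n + 3) := by
    simp only [hA, Fin.val_zero]
    congr 1
  have c2 : A (2 * (n + 2) - 1 - ((0 : Fin (2 * (n + 1) + 1 + 1)) : ℕ))
      (2 * (n + 2) - 1 - 2) = D (2 * n + 1) (2 * n + 3) := by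
    simp only [hA, Fin.val_zero]
    congr 1
  simp only []
  rw [c1, c2]
  congr 1
  · congr 1
    rw [hrev (n + 1)]
    apply S_congr
    intro i j
    congr 1 <;> omega
  · congr 1
    have e3 : S A (n + 1) (fun x : Fin (2 * (n + 1)) => 2 * (n + 2) - 1 - ((if (x : ℕ) = 0 then
        (⟨1, by omega⟩ : Fin (2 * (n + 1) + 1 + 1)) else ⟨(x : ℕ) + 2, by omega⟩ :
          Fin (2 * (n + 1) + 1 + 1)) : ℕ)) =
        S A (n + 1) (fun i : Fin (2 * n + 1 + 1) => if (i : ℕ) = 0 then 2 * n + 2 else
      2 * (n + 1) - 1 - (i : ℕ)) := by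
      apply S_congr
      intro i j
      have : ∀ i : Fin (2 * (n + 1)), 2 * (n + 2) - 1 - ((if (i : ℕ) = 0 then
        (⟨1, by omega⟩ : Fin (2 * (n + 1) + 1 + 1)) else ⟨(i : ℕ) + 2, by omega⟩ :
          Fin (2 * (n + 1) + 1 + 1)) : ℕ) = if (i : ℕ) = 0 then 2 * n + 2 else
          2 * (n + 1) - 1 - (i : ℕ) := by
        intro i
        split_ifs with h
        · simp only []
          omega
        · simp only []
          omega
      rw [this, this]
    rw [e3]
    have e2 := S_expand A hAs n (fun i : Fin (2 * n + 1 + 1) => if (i : ℕ) = 0 then 2 * n + 2 else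
        2 * (n + 1) - 1 - (i : ℕ))
    refine e2.trans ?_
    congr 1
    rw [Finset.sum_eq_single (0 : Fin (2 * n + 1))]
    · rw [if_pos rfl, one_mul]
      have c3 : A (if ((0 : Fin (2 * n + 1 + 1)) : ℕ) = 0 then 2 * n + 2 else
          2 * (n + 1) - 1 - ((0 : Fin (2 * n + 1 + 1)) : ℕ))
          (if ((Fin.succ (0 : Fin (2 * n + 1)) : Fin (2 * n + 1 + 1)) : ℕ) = 0 then 2 * n + 2 else
        2 * (n + 1) - 1 - ((Fin.succ (0 : Fin (2 * n + 1)) : Fin (2 * n + 1 + 1)) : ℕ)) =
          D (2 * n) (2 * n + 2) := by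
        simp only [hA, Fin.val_zero, Fin.val_succ]
        congr 1
      rw [c3]
      congr 1
      rw [hrev n]
      apply S_congr
      intro i j
      have : ∀ i : Fin (2 * n), (if ((((swap 0 0) (Fin.succ i)).succ : Fin (2 * n + 1 + 1)) : ℕ) = 0 then
          2 * n + 2 else 2 * (n + 1) - 1 -
          ((((swap 0 0) (Fin.succ i)).succ : Fin (2 * n + 1 + 1)) : ℕ)) =
          2 * n - 1 - (i : ℕ) := by
        intro i
        rw [if_neg (by simp)]
        simp
        omega
      rw [this, this]
    · intro p _ hp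
      have hp' : (p : ℕ) ≠ 0 := fun h => hp (Fin.ext h)
      rw [hz']
      · ring
      · simp only [Fin.val_zero, Fin.val_succ, if_true]
        rw [if_neg (by omega)]
        omega
    · simp

end Pool.Agent.Zk81.Pf
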