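import Pool.Agent.Zk81.Pf.ASC

/-!
The two Pfaffian evaluations.
-/

set_option autoImplicit false

namespace Pool.Agent.Zk81.Pf

open Finset

variable {K : Type*} [Field K]

/-- The double sum for an antisymmetric matrix with superdiagonal `d`. -/
lemma sum_anti (N d : ℕ) (u v c : ℕ → K) :
    ∑ x ∈ range N, ∑ y ∈ range N, u x * ((if y = x + d then c x else 0) -
      (if x = y + d then c y else 0)) * v y =
      ∑ x ∈ range (N - d), (c x * u x * v (x + d) - c x * v x * u (x + d)) := by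
  have h1 : ∑ x ∈ range N, ∑ y ∈ range N, u x * ((if y = x + d then c x else 0) -
      (if x = y + d then c y else 0)) * v y =
      ∑ x ∈ range N, ∑ y ∈ range N, (if y = x + d then u x * c x * v y else 0) -
      ∑ x ∈ range N, ∑ y ∈ range N, (if x = y + d then v y * c y * u x else 0) := by
    rw [← sum_sub_distrib]
    apply sum_congr rfl
    intro x _
    rw [← sum_sub_distrib]
    apply sum_congr rfl
    intro y _
    split_ifs <;> ring
  rw [h1, sum_super, sum_comm (s := range N) (t := range N)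
    (f := fun x y => (if x = y + d then v y * c y * u x else 0)), sum_super, ← sum_sub_distrib]
  apply sum_congr rfl
  intro x _
  ring

section

variable {q : K} (hq : ∀ i : ℕ, 1 ≤ i → q ^ i ≠ 1) (a : K)
include hq

lemma dec1 (N i j : ℕ) (hi : i < N + 1) (hj : j < N + 1) :
    (q ^ i - q ^ j) * gn a q (i + j - 1) =
      ∑ x ∈ range (N + 1), ∑ y ∈ range (N + 1), G a q i x * D1 a q x y * G a q j y := by
  have h1 : ∀ x y, D1 a q x y = (if y = x + 1 then (1 - q ^ (x + 1)) * h a q x else 0) -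
      (if x = y + 1 then (1 - q ^ (y + 1)) * h a q y else 0) := by
    intro x y
    unfold D1
    split_ifs <;> first | omega | ring
  simp only [h1]
  rw [sum_anti (N + 1) 1 (fun x => G a q i x) (fun y => G a q j y)
    (fun x => (1 - q ^ (x + 1)) * h a q x)]
  rw [Nat.add_sub_cancel, sum_sub_distrib, T_eq hq a i j N hj, T_eq hq a j i N hi]
  rw [Nat.add_comm j i]
  ring

lemma dec2 (N i j : ℕ) (hi : i < N + 2) (hj : j < N + 2) :
    (q ^ i - q ^ j) * gn a q (i + j) =
      ∑ x ∈ range (N + 2), ∑ y ∈ range (N + 2), G a q i x * D2 a q x y * G a q j y := by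
  obtain ⟨c1, hc1⟩ : ∃ c1 : ℕ → K, ∀ x, c1 x = (1 + a) * q ^ x * (1 - q ^ (x + 1)) * h a q x :=
    ⟨_, fun _ => rfl⟩
  obtain ⟨c2, hc2⟩ : ∃ c2 : ℕ → K, ∀ x, c2 x = (1 - q ^ (x + 2)) * h a q (x + 1) :=
    ⟨_, fun _ => rfl⟩
  have h1 : ∀ x y, D2 a q x y = ((if y = x + 1 then c1 x else 0) - (if x = y + 1 then c1 y else 0)) +
      ((if y = x + 2 then c2 x else 0) - (if x = y + 2 then c2 y else 0)) := by
    intro x y
    rw [hc1, hc1, hc2, hc2]
    unfold D2
    split_ifs <;> first | omega | ring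
  simp only [h1, mul_add, add_mul, sum_add_distrib]
  rw [sum_anti (N + 2) 1 (fun x => G a q i x) (fun y => G a q j y) c1,
    sum_anti (N + 2) 2 (fun x => G a q i x) (fun y => G a q j y) c2]
  simp only [hc1, hc2]
  have e1 : N + 2 - 1 = N + 1 := by omega
  have e2 : N + 2 - 2 = N := by omega
  rw [e1, e2]
  have X : ∀ i j, j < N + 2 → (1 - q ^ j) * gn a q (i + j) =
      ∑ x ∈ range (N + 1), (1 + a) * q ^ x * (1 - q ^ (x + 1)) * h a q x * G a q i x *
        G a q j (x + 1) +
      ∑ x ∈ range N, (1 - q ^ (x + 2)) * h a q (x + 1) * G a q i x * G a q j (x + 2) -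
      ∑ x ∈ range (N + 1), a * q ^ x * (1 - q ^ (x + 1)) ^ 2 * h a q x * G a q i (x + 1) *
        G a q j (x + 1) := by
    intro i j hj
    have h2 := T_eq hq a (i + 1) j (N + 1) (by omega)
    have e3 : i + 1 + j - 1 = i + j := by omega
    rw [e3] at h2
    rw [← h2, sum_range_succ' (fun k => (1 - q ^ (k + 1)) * h a q k * G a q (i + 1) k *
      G a q j (k + 1)), sum_range_succ' (fun x => (1 + a) * q ^ x * (1 - q ^ (x + 1)) * h a q x *
      G a q i x * G a q j (x + 1)), sum_range_succ' (fun x => a * q ^ x * (1 - q ^ (x + 1)) ^ 2 *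
      h a q x * G a q i (x + 1) * G a q j (x + 1)), R_zero hq]
    have h3 : ∑ k ∈ range N, (1 - q ^ (k + 1 + 1)) * h a q (k + 1) * G a q (i + 1) (k + 1) *
        G a q j (k + 1 + 1) =
        ∑ x ∈ range N, (1 + a) * q ^ (x + 1) * (1 - q ^ (x + 1 + 1)) * h a q (x + 1) *
          G a q i (x + 1) * G a q j (x + 1 + 1) +
        ∑ x ∈ range N, (1 - q ^ (x + 2)) * h a q (x + 1) * G a q i x * G a q j (x + 2) -
        ∑ x ∈ range N, a * q ^ (x + 1) * (1 - q ^ (x + 1 + 1)) ^ 2 * h a q (x + 1) *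
          G a q i (x + 1 + 1) * G a q j (x + 1 + 1) := by
      rw [← sum_add_distrib, ← sum_sub_distrib]
      apply sum_congr rfl
      intro k _
      rw [R_succ hq]
      ring
    rw [h3]
    ring
  have h4 := X i j hj
  have h5 := X j i hi
  rw [Nat.add_comm j i] at h5
  rw [sum_sub_distrib, sum_sub_distrib]
  have h6 : ∑ x ∈ range (N + 1), a * q ^ x * (1 - q ^ (x + 1)) ^ 2 * h a q x * G a q j (x + 1) *
        G a q i (x + 1) = ∑ x ∈ range (N + 1), a * q ^ x * (1 - q ^ (x + 1)) ^ 2 * h a q x *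
        G a q i (x + 1) * G a q j (x + 1) := by
    apply sum_congr rfl; intro x _; ring
  rw [h6] at h5
  have h7 : (q ^ i - q ^ j) * gn a q (i + j) = (1 - q ^ j) * gn a q (i + j) -
    (1 - q ^ i) * gn a q (i + j) := by ring
  rw [h7, h4, h5]
  ring

end

section CharZero

variable [CharZero K]

/-- The normalised Pfaffian of the leading block of a matrix indexed by the natural numbers. -/
noncomputable def P (D : ℕ → ℕ → K) (n : ℕ) : K :=
  (1 / (2 ^ n * (n.factorial : K))) * S D n (fun i => (i : ℕ))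

lemma P_zero (D : ℕ → ℕ → K) : P D 0 = 1 := by
  simp [P, S]

lemma P_one (D : ℕ → ℕ → K) (hD : ∀ x y, D x y = - D y x) : P D 1 = D 0 1 := by
  have h1 := S_expand D hD 0 (fun i : Fin (2 * 0 + 1 + 1) => (i : ℕ))
  have h2 : S D 1 (fun i : Fin (2 * 1) => (i : ℕ)) = 2 * D 0 1 := by
    refine h1.trans ?_
    simp [S]
  unfold P
  rw [h2]
  simp

lemma P_rec (D : ℕ → ℕ → K) (hD : ∀ x y, D x y = - D y x)
    (hz : ∀ x y, x + 2 < y → D x y = 0) (n : ℕ) :
    P D (n + 2) = D (2 * n + 2) (2 * n + 3) * P D (n + 1) -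
      D (2 * n + 1) (2 * n + 3) * D (2 * n) (2 * n + 2) * P D n := by
  unfold P
  rw [S_penta D hD hz]
  have h1 : (n.factorial : K) ≠ 0 := by exact_mod_cast n.factorial_ne_zero
  have h2 : ((n : K) + 1) ≠ 0 := by exact_mod_cast Nat.succ_ne_zero n
  have h3 : ((n : K) + 1 + 1) ≠ 0 := by exact_mod_cast Nat.succ_ne_zero (n + 1)
  rw [Nat.factorial_succ (n + 1), Nat.factorial_succ n]
  push_cast
  field_simp
  ring

omit [CharZero K] in
/-- The matrices of the problem have the same Pfaffians as the banded matrices. -/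
lemma pfaffian_eq (M D G : ℕ → ℕ → K) (n : ℕ)
    (hG : ∀ i j, i < j → G i j = 0) (hG1 : ∀ i, G i i = 1)
    (h : ∀ i < 2 * n, ∀ j < 2 * n, M i j =
      ∑ a ∈ range (2 * n), ∑ b ∈ range (2 * n), G i a * D a b * G j b)
    (A : Matrix (Fin (2 * n)) (Fin (2 * n)) K) (hA : ∀ i j, A i j = M i j) :
    pfaffian A = P D n := by
  have h1 := S_change M D G n hG hG1 h
  unfold P
  rw [← h1]
  unfold pfaffian S
  simp only [hA]

end CharZero

lemma moment_natCast (a q : K) (r : ℕ) : moment a q (r : ℤ) = gn a q r := by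
  unfold moment gn
  rw [if_neg (by omega), Int.toNat_natCast]
  apply sum_congr rfl
  intro j hj
  rw [mem_range] at hj
  unfold gb
  rw [if_pos (by omega)]

end Pool.Agent.Zk81.Pf
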