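import Pool.Agent.Zk81.Pf.Final

/-!
Closed forms of the two Pfaffians.
-/

set_option autoImplicit false

namespace Pool.Agent.Zk81.Pf

open Finset

variable {K : Type*} [Field K]

/-- The exponent of `q` in the first evaluation. -/
def E (n : ℕ) : ℕ := ∑ k ∈ range n, (2 * k).choose 2

lemma E_succ (n : ℕ) : E (n + 1) = E n + (2 * n).choose 2 := by
  unfold E; rw [sum_range_succ]

lemma choose_two_int (x : ℕ) : 2 * ((x.choose 2 : ℕ) : ℤ) = (x : ℤ) * ((x : ℤ) - 1) := by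
  induction x with
  | zero => simp
  | succ x ih =>
    rw [Nat.choose_succ_succ' x 1, Nat.choose_one_right]
    push_cast
    linarith

lemma six_E (n : ℕ) : 6 * (E n : ℤ) = (n : ℤ) * ((n : ℤ) - 1) * (4 * (n : ℤ) - 5) := by
  induction n with
  | zero => simp [E]
  | succ n ih =>
    rw [E_succ]
    have := choose_two_int (2 * n)
    push_cast at *
    linarith

lemma third (m : ℤ) : 3 * (m * (16 * m ^ 2 - 1) / 3) = m * (16 * m ^ 2 - 1) := by
  apply Int.mul_ediv_cancel'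
  have h : m % 3 = 0 ∨ m % 3 = 1 ∨ m % 3 = 2 := by omega
  apply Int.dvd_of_emod_eq_zero
  rcases h with h | h | h <;> simp [Int.mul_emod, Int.sub_emod, pow_two, h]

lemma expo_eq (n : ℕ) : expo n - 2 * (((n / 2 : ℕ) : ℤ) * (((n - 1) / 2 : ℕ) : ℤ)) = (E n : ℤ) := by
  have h6 := six_E n
  unfold expo
  rcases Nat.even_or_odd n with ⟨m, hm⟩ | ⟨m, hm⟩
  · have h1 : n / 2 = m := by omega
    have h2 : (((n - 1) / 2 : ℕ) : ℤ) * m = (m - 1) * m := by
      rcases m with _ | m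
      · simp
      · have : (n - 1) / 2 = m := by omega
        rw [this]; push_cast; ring
    have h3 : ((-1 : ℤ)) ^ n = 1 := Even.neg_one_pow ⟨m, hm⟩
    rw [h1, h3, mul_comm (m : ℤ) (((n - 1) / 2 : ℕ) : ℤ), h2]
    have h4 := third (m : ℤ)
    have h5 : (n : ℤ) = 2 * m := by rw [hm]; push_cast; ring
    rw [h5] at h6
    nlinarith
  · have h1 : n / 2 = m := by omega
    have h2 : (n - 1) / 2 = m := by omega
    have h3 : ((-1 : ℤ)) ^ n = -1 := Odd.neg_one_pow ⟨m, hm⟩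
    rw [h1, h3, h2]
    have h4 := third (m : ℤ)
    have h5 : (n : ℤ) = 2 * m + 1 := by rw [hm]; push_cast; ring
    rw [h5] at h6
    nlinarith

lemma cexp (n k : ℕ) (hk : k ≤ n) : ((n : ℤ) - 2 * (k : ℤ)) ^ 2 / 2 +
    2 * (((n / 2 : ℕ) : ℤ) * (((n - 1) / 2 : ℕ) : ℤ)) =
    2 * ((k.choose 2 + (n - k).choose 2 : ℕ) : ℤ) := by
  obtain ⟨y, rfl⟩ : ∃ y, n = k + y := ⟨n - k, by omega⟩
  rw [Nat.add_sub_cancel_left]
  have h1 := choose_two_int k
  have h2 := choose_two_int y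
  rcases Nat.even_or_odd (k + y) with ⟨m, hm⟩ | ⟨m, hm⟩
  · have e1 : (k + y) / 2 = m := by omega
    have e2 : (((k + y - 1) / 2 : ℕ) : ℤ) * m = (m - 1) * m := by
      rcases m with _ | m
      · simp
      · have : (k + y - 1) / 2 = m := by omega
        rw [this]; push_cast; ring
    rw [e1, mul_comm (m : ℤ) (((k + y - 1) / 2 : ℕ) : ℤ), e2]
    push_cast
    have e3 : (y : ℤ) = 2 * m - k := by
      have : ((k + y : ℕ) : ℤ) = ((m + m : ℕ) : ℤ) := by rw [hm]
      push_cast at this; linarith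
    rw [e3] at h2 ⊢
    have e4 : ((k : ℤ) + (2 * m - k) - 2 * k) ^ 2 / 2 = 2 * ((m : ℤ) - k) ^ 2 := by
      have : ((k : ℤ) + (2 * m - k) - 2 * k) ^ 2 = 2 * (2 * ((m : ℤ) - k) ^ 2) := by ring
      rw [this, Int.mul_ediv_cancel_left _ (by norm_num)]
    rw [e4]
    nlinarith
  · have e1 : (k + y) / 2 = m := by omega
    have e2 : (k + y - 1) / 2 = m := by omega
    rw [e1, e2]
    push_cast
    have e3 : (y : ℤ) = 2 * m + 1 - k := by
      have : ((k + y : ℕ) : ℤ) = ((2 * m + 1 : ℕ) : ℤ) := by rw [hm]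
      push_cast at this; linarith
    rw [e3] at h2 ⊢
    have e4 : ((k : ℤ) + (2 * m + 1 - k) - 2 * k) ^ 2 / 2 =
        2 * ((m : ℤ) - k) * ((m : ℤ) - k + 1) := by
      have : ((k : ℤ) + (2 * m + 1 - k) - 2 * k) ^ 2 =
        1 + 2 * (2 * ((m : ℤ) - k) * ((m : ℤ) - k + 1)) := by ring
      rw [this, Int.add_mul_ediv_left _ _ (by norm_num)]
      norm_num
    rw [e4]
    nlinarith

/-- The product of the entries on every second place of the first superdiagonal. -/
def NN (a q : K) (n : ℕ) : K := ∏ k ∈ range n, ((1 - q ^ (2 * k + 1)) * h a q (2 * k))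

lemma NN_succ (a q : K) (n : ℕ) :
    NN a q (n + 1) = NN a q n * ((1 - q ^ (2 * n + 1)) * h a q (2 * n)) := by
  unfold NN; rw [prod_range_succ]

lemma NN_eq (a q : K) (n : ℕ) :
    NN a q n = a ^ (n * (n - 1)) * q ^ E n * ∏ k ∈ Icc 1 n, poch q (2 * k - 1) := by
  induction n with
  | zero => simp [NN, E]
  | succ n ih =>
    rw [NN_succ, ih, E_succ, Finset.prod_Icc_succ_top (by omega), pow_add]
    have e1 : 2 * (n + 1) - 1 = 2 * n + 1 := by omega
    have e2 : (n + 1) * (n + 1 - 1) = n * (n - 1) + 2 * n := by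
      rcases n with _ | n
      · rfl
      · simp only [Nat.add_sub_cancel]; ring
    rw [e1, e2, pow_add, poch_succ]
    unfold h
    have e3 : (-a) ^ (2 * n) = a ^ (2 * n) := by rw [pow_mul, pow_mul, neg_sq]
    rw [e3]
    ring

/-- The second factor of the second evaluation. -/
def RR (a Q : K) (n : ℕ) : K :=
  ∑ k ∈ range (n + 1), gb Q n k * Q ^ (k.choose 2 + (n - k).choose 2) * a ^ k

lemma RR_rec {Q : K} (hQ : ∀ i : ℕ, 1 ≤ i → Q ^ i ≠ 1) (a : K) (n : ℕ) :
    RR a Q (n + 2) = (1 + a) * Q ^ (n + 1) * RR a Q (n + 1) +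
      a * Q ^ n * (1 - Q ^ (n + 1)) * RR a Q n := by
  have key : ∀ k ∈ range (n + 2), gb Q (n + 2) (k + 1) *
      Q ^ ((k + 1).choose 2 + (n + 2 - (k + 1)).choose 2) * a ^ (k + 1) =
      Q ^ (n + 1) * (gb Q (n + 1) (k + 1) *
      Q ^ ((k + 1).choose 2 + (n + 1 - (k + 1)).choose 2) * a ^ (k + 1)) +
      a * Q ^ (n + 1) * (gb Q (n + 1) k * Q ^ (k.choose 2 + (n + 1 - k).choose 2) * a ^ k) +
      a * Q ^ n * (1 - Q ^ (n + 1)) * (gb Q n k * Q ^ (k.choose 2 + (n - k).choose 2) * a ^ k) := by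
    intro k hk
    rw [mem_range] at hk
    rcases Nat.lt_or_ge n k with hk' | hk'
    · have e : k = n + 1 := by omega
      subst e
      rw [gb_self hQ (n + 1 + 1), gb_gt Q (show n + 1 < n + 1 + 1 by omega), gb_self hQ (n + 1),
        gb_gt Q (show n < n + 1 by omega)]
      have e1 : n + 2 - (n + 1 + 1) = 0 := by omega
      have e2 : n + 1 - (n + 1) = 0 := by omega
      rw [e1, e2, Nat.choose_succ_succ' (n + 1) 1, Nat.choose_one_right, pow_add, pow_add, pow_add]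
      ring
    · obtain ⟨r, rfl⟩ : ∃ r, n = r + k := ⟨n - k, by omega⟩
      have e1 : r + k + 2 - (k + 1) = r + 1 := by omega
      have e2 : r + k + 1 - (k + 1) = r := by omega
      have e3 : r + k + 1 - k = r + 1 := by omega
      have e4 : r + k - k = r := by omega
      rw [e1, e2, e3, e4, Nat.choose_succ_succ' k 1, Nat.choose_one_right,
        Nat.choose_succ_succ' r 1, Nat.choose_one_right]
      have i1 := I1 hQ (r + k + 1) k
      have i4 := I4 hQ k r
      have e5 : r + k + 1 + 1 = r + k + 2 := rfl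
      rw [e5] at i1
      have e6 : Q ^ (k + k.choose 2 + (r + r.choose 2)) =
        Q ^ (r + k) * Q ^ (k.choose 2 + r.choose 2) := by rw [← pow_add]; congr 1; ring
      have e7 : Q ^ (k + k.choose 2 + r.choose 2) =
        Q ^ k * Q ^ (k.choose 2 + r.choose 2) := by rw [← pow_add]; congr 1; ring
      have e8 : Q ^ (k.choose 2 + (r + r.choose 2)) =
        Q ^ r * Q ^ (k.choose 2 + r.choose 2) := by rw [← pow_add]; congr 1; ring
      rw [e6, e7, e8]
      generalize Q ^ (k.choose 2 + r.choose 2) = Z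
      rw [i1]
      have e9 : Q ^ (r + k + 1) = Q ^ r * Q ^ k * Q := by rw [pow_add, pow_add, pow_one]
      have e10 : Q ^ (r + k) = Q ^ r * Q ^ k := by rw [pow_add]
      have e11 : Q ^ (k + 1) = Q ^ k * Q := by rw [pow_succ]
      have e12 : Q ^ (r + 1) = Q ^ r * Q := by rw [pow_succ]
      have e13 : a ^ (k + 1) = a ^ k * a := by rw [pow_succ]
      rw [e12] at i4
      rw [e9] at i4 ⊢
      rw [e10, e11, e13]
      linear_combination (Q ^ r * Q ^ k * Z * a ^ k * a) * i4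
  unfold RR
  rw [sum_range_succ' _ (n + 2), sum_congr rfl key, sum_add_distrib, sum_add_distrib, ← mul_sum,
    ← mul_sum, ← mul_sum]
  have s1 : ∑ k ∈ range (n + 1 + 1), gb Q (n + 1) k *
      Q ^ (k.choose 2 + (n + 1 - k).choose 2) * a ^ k =
      ∑ k ∈ range (n + 2), gb Q (n + 1) (k + 1) *
        Q ^ ((k + 1).choose 2 + (n + 1 - (k + 1)).choose 2) * a ^ (k + 1) + Q ^ ((n + 1).choose 2) := by
    rw [sum_range_succ' _ (n + 1), sum_range_succ (fun k => gb Q (n + 1) (k + 1) *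
        Q ^ ((k + 1).choose 2 + (n + 1 - (k + 1)).choose 2) * a ^ (k + 1)) (n + 1),
        gb_gt Q (show n + 1 < n + 1 + 1 by omega), gb_zero hQ]
    simp
  have s2 : ∑ k ∈ range (n + 2), gb Q n k * Q ^ (k.choose 2 + (n - k).choose 2) * a ^ k =
      ∑ k ∈ range (n + 1), gb Q n k * Q ^ (k.choose 2 + (n - k).choose 2) * a ^ k := by
    rw [sum_range_succ _ (n + 1), gb_gt Q (show n < n + 1 by omega)]
    ring
  rw [s2]
  have s3 : (1 + a) * Q ^ (n + 1) * ∑ k ∈ range (n + 1 + 1), gb Q (n + 1) k *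
      Q ^ (k.choose 2 + (n + 1 - k).choose 2) * a ^ k =
      Q ^ (n + 1) * ∑ k ∈ range (n + 1 + 1), gb Q (n + 1) k *
      Q ^ (k.choose 2 + (n + 1 - k).choose 2) * a ^ k +
      a * Q ^ (n + 1) * ∑ k ∈ range (n + 1 + 1), gb Q (n + 1) k *
      Q ^ (k.choose 2 + (n + 1 - k).choose 2) * a ^ k := by ring
  rw [s3]
  have s4 : gb Q (n + 2) 0 * Q ^ (Nat.choose 0 2 + (n + 2 - 0).choose 2) * a ^ 0 =
    Q ^ (n + 1) * Q ^ ((n + 1).choose 2) := by
    rw [gb_zero hQ, ← pow_add, Nat.sub_zero, Nat.choose_succ_succ' (n + 1) 1, Nat.choose_one_right]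
    simp
  rw [s4]
  linear_combination (-Q ^ (n + 1)) * s1

lemma RR_zero (a Q : K) (hQ : ∀ i : ℕ, 1 ≤ i → Q ^ i ≠ 1) : RR a Q 0 = 1 := by
  unfold RR
  simp [gb_self hQ]

lemma RR_one (a Q : K) (hQ : ∀ i : ℕ, 1 ≤ i → Q ^ i ≠ 1) : RR a Q 1 = 1 + a := by
  unfold RR
  rw [sum_range_succ, sum_range_one, gb_self hQ, gb_zero hQ]
  simp

section

variable [CharZero K] {q : K} (hq : ∀ i : ℕ, 1 ≤ i → q ^ i ≠ 1) (a : K)

lemma P_D1 (n : ℕ) : P (D1 a q) n = NN a q n := by
  induction n using Nat.strong_induction_on with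
  | _ n ih =>
    rcases n with _ | _ | n
    · rw [P_zero]; simp [NN]
    · rw [P_one _ (D1_anti a q)]; simp [NN, D1]
    · rw [P_rec _ (D1_anti a q), ih (n + 1) (by omega), NN_succ a q (n + 1)]
      · have e1 : D1 a q (2 * n + 1) (2 * n + 3) = 0 := by
          unfold D1; rw [if_neg (by omega), if_neg (by omega)]
        have e2 : D1 a q (2 * n + 2) (2 * n + 3) =
            (1 - q ^ (2 * (n + 1) + 1)) * h a q (2 * (n + 1)) := by
          unfold D1; rw [if_pos (by omega)]; congr 1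
        rw [e1, e2]
        ring
      · intro x y hxy
        unfold D1; rw [if_neg (by omega), if_neg (by omega)]

include hq in
lemma P_D2 (n : ℕ) : P (D2 a q) n = NN a q n * RR a (q ^ 2) n := by
  have hQ : ∀ i : ℕ, 1 ≤ i → (q ^ 2) ^ i ≠ 1 := by
    intro i hi
    rw [← pow_mul]
    exact hq _ (by omega)
  induction n using Nat.strong_induction_on with
  | _ n ih =>
    rcases n with _ | _ | n
    · rw [P_zero, RR_zero a _ hQ]; simp [NN]
    · rw [P_one _ (D2_anti a q), RR_one a _ hQ]; simp [NN, D2]; ring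
    · rw [P_rec _ (D2_anti a q), ih (n + 1) (by omega), ih n (by omega), NN_succ a q (n + 1),
        NN_succ a q n, RR_rec hQ]
      · have e1 : D2 a q (2 * n + 1) (2 * n + 3) = (1 - q ^ (2 * n + 3)) * h a q (2 * n + 2) := by
          unfold D2
          rw [if_neg (by omega), if_neg (by omega), if_pos (by omega)]
        have e2 : D2 a q (2 * n + 2) (2 * n + 3) =
            (1 + a) * q ^ (2 * n + 2) * (1 - q ^ (2 * n + 3)) * h a q (2 * n + 2) := by
          unfold D2; rw [if_pos (by omega)]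
        have e3 : D2 a q (2 * n) (2 * n + 2) = (1 - q ^ (2 * n + 2)) * h a q (2 * n + 1) := by
          unfold D2
          rw [if_neg (by omega), if_neg (by omega), if_pos (by omega)]
        rw [e1, e2, e3, h_succ a q (2 * n)]
        have e4 : 2 * (n + 1) + 1 = 2 * n + 3 := by ring
        have e5 : 2 * (n + 1) = 2 * n + 2 := by ring
        rw [e4, e5, ← pow_mul, ← pow_mul]
        have e6 : 2 * (n + 1) = 2 * n + 2 := by ring
        rw [e6]
        ring
      · intro x y hxy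
        unfold D2
        rw [if_neg (by omega), if_neg (by omega), if_neg (by omega), if_neg (by omega)]

include hq in
theorem main1 (n : ℕ) (hn : 1 ≤ n) :
    pfaffian (Matrix.of fun i j : Fin (2 * n) => (q ^ (i : ℕ) - q ^ (j : ℕ)) *
      moment a q (((i : ℕ) : ℤ) + 1 + (((j : ℕ) : ℤ) + 1) - 3)) =
    a ^ (n * (n - 1)) * q ^ (expo n - 2 * (((n / 2 : ℕ) : ℤ) * (((n - 1) / 2 : ℕ) : ℤ))) *
      ∏ k ∈ Icc 1 n, poch q (2 * k - 1) := by
  obtain ⟨N, hN⟩ : ∃ N, 2 * n = N + 1 := ⟨2 * n - 1, by omega⟩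
  rw [pfaffian_eq (fun i j => (q ^ i - q ^ j) * gn a q (i + j - 1)) (D1 a q) (G a q) n
    (fun i j hij => G_gt a hij) (fun i => G_self hq a i)]
  · rw [P_D1, NN_eq, expo_eq, zpow_natCast]
  · intro i hi j hj
    rw [hN] at hi hj ⊢
    exact dec1 hq a N i j hi hj
  · intro i j
    rw [Matrix.of_apply]
    by_cases hij : (i : ℕ) + (j : ℕ) = 0
    · have h1 : (i : ℕ) = 0 := by omega
      have h2 : (j : ℕ) = 0 := by omega
      rw [h1, h2]; ring
    · congr 1
      rw [← moment_natCast]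
      congr 1
      omega

include hq in
theorem main2 (n : ℕ) (hn : 1 ≤ n) :
    pfaffian (Matrix.of fun i j : Fin (2 * n) => (q ^ (i : ℕ) - q ^ (j : ℕ)) *
      moment a q (((i : ℕ) : ℤ) + 1 + (((j : ℕ) : ℤ) + 1) - 2)) =
    a ^ (n * (n - 1)) * q ^ (expo n) * (∏ k ∈ Icc 1 n, poch q (2 * k - 1)) *
      ∑ k ∈ range (n + 1), q ^ (((n : ℤ) - 2 * (k : ℤ)) ^ 2 / 2) * gaussBinom (q ^ 2) n k * a ^ k := by
  obtain ⟨N, hN⟩ : ∃ N, 2 * n = N + 2 := ⟨2 * n - 2, by omega⟩
  rw [pfaffian_eq (fun i j => (q ^ i - q ^ j) * gn a q (i + j)) (D2 a q) (G a q) n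
    (fun i j hij => G_gt a hij) (fun i => G_self hq a i)]
  · rw [P_D2 hq, NN_eq]
    unfold RR
    rw [Finset.mul_sum, Finset.mul_sum]
    apply Finset.sum_congr rfl
    intro k hk
    rw [mem_range] at hk
    have h1 := expo_eq n
    have h2 := cexp n k (by omega)
    obtain ⟨mm, hmm⟩ : ∃ mm : ℕ, mm = (n / 2) * ((n - 1) / 2) := ⟨_, rfl⟩
    have h3 : expo n = ((E n + 2 * mm : ℕ) : ℤ) := by
      rw [hmm]; push_cast; push_cast at h1; linarith
    have h4 : (((n : ℤ) - 2 * (k : ℤ)) ^ 2 / 2) ≥ 0 := by positivity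
    obtain ⟨c, hc⟩ := Int.eq_ofNat_of_zero_le h4
    have h5 : c + 2 * mm = 2 * (k.choose 2 + (n - k).choose 2) := by
      rw [hc] at h2
      rw [hmm]
      exact_mod_cast h2
    rw [h3, hc, zpow_natCast, zpow_natCast]
    have h7 : gb (q ^ 2) n k = gaussBinom (q ^ 2) n k := by
      unfold gb; rw [if_pos (by omega)]
    have h8 : q ^ E n * (q ^ 2) ^ (k.choose 2 + (n - k).choose 2) = q ^ (E n + 2 * mm) * q ^ c := by
      rw [← pow_mul, ← h5, ← pow_add, ← pow_add]
      congr 1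
      ring
    rw [h7]
    calc _ = a ^ (n * (n - 1)) * (q ^ E n * (q ^ 2) ^ (k.choose 2 + (n - k).choose 2)) *
      (∏ k ∈ Icc 1 n, poch q (2 * k - 1)) * gaussBinom (q ^ 2) n k * a ^ k := by ring
      _ = _ := by rw [h8]; ring
  · intro i hi j hj
    rw [hN] at hi hj ⊢
    exact dec2 hq a N i j hi hj
  · intro i j
    rw [Matrix.of_apply, ← moment_natCast]
    congr 2
    omega

end

end Pool.Agent.Zk81.Pf
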